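import Pool.Agent.LKU.Stmts
import Pool.Agent.Helper47_LKT.WLF

/-!
# Squad LKU, row WLI: walls of two inner links (edit of Helper47_LKT/WLF)
-/

set_option autoImplicit false

namespace Pool.Agent.LKU.H63

open Pool.Agent.LCK Pool.Agent.LKT Pool.Agent.LKU Pool.Agent.LKT.H47

theorem wli (crm : CrmStmt) : WliStmt := by
  intro x hx j hj hF h0
  have hdis := hx.1
  rcases hj with rfl | rfl | rfl | rfl | rfl
  · -- 1234
    have f40 := hF 40 (by norm_num) (by norm_num)
    have f31 := hF 31 (by norm_num) (by norm_num)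
    have f25 := hF 25 (by norm_num) (by norm_num)
    have f23 := hF 23 (by norm_num) (by norm_num)
    simp only [F2, tb2, Int.cast_neg, Int.cast_one, neg_mul, one_mul] at f40 f31 f25 f23 h0
    refine wall crm x 1 2 3 4 5 (by decide) (by decide) (by decide) (by decide) (-1) ?_ ?_ ?_ ?_
      (by linarith) (hdis 1 3 (by decide)) <;> linarith
  · -- 1245
    have f40 := hF 40 (by norm_num) (by norm_num)
    have f31 := hF 31 (by norm_num) (by norm_num)
    have f23 := hF 23 (by norm_num) (by norm_num)
    have f22 := hF 22 (by norm_num) (by norm_num)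
    simp only [F2, tb2, Int.cast_neg, Int.cast_one, neg_mul, one_mul] at f40 f31 f23 f22 h0
    refine wall crm x 1 2 4 5 3 (by decide) (by decide) (by decide) (by decide) (-1) ?_ ?_ ?_ ?_
      (by linarith) (hdis 1 4 (by decide))
    · rw [rot3 crm x 2 3 4 5]; linarith
    · rw [rot3 crm x 1 3 4 5]; linarith
    · rw [sw34 crm x 1 2 3 5]; linarith
    · rw [sw34 crm x 1 2 3 4]; linarith
  · -- 1256
    have f45 := hF 45 (by norm_num) (by norm_num)
    have f36 := hF 36 (by norm_num) (by norm_num)
    have f26 := hF 26 (by norm_num) (by norm_num)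
    have f25 := hF 25 (by norm_num) (by norm_num)
    simp only [F2, tb2, Int.cast_neg, Int.cast_one, neg_mul, one_mul] at f45 f36 f26 f25 h0
    refine wall crm x 1 2 5 6 4 (by decide) (by decide) (by decide) (by decide) (-1) ?_ ?_ ?_ ?_
      (by linarith) (hdis 1 5 (by decide))
    · rw [rot3 crm x 2 4 5 6]; linarith
    · rw [rot3 crm x 1 4 5 6]; linarith
    · rw [sw34 crm x 1 2 4 6]; linarith
    · rw [sw34 crm x 1 2 4 5]; linarith
  · -- 2356
    have f48 := hF 48 (by norm_num) (by norm_num)
    have f45 := hF 45 (by norm_num) (by norm_num)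
    have f41 := hF 41 (by norm_num) (by norm_num)
    have f40 := hF 40 (by norm_num) (by norm_num)
    simp only [F2, tb2, Int.cast_neg, Int.cast_one, neg_mul, one_mul] at f48 f45 f41 f40 h0
    refine wall crm x 2 3 5 6 4 (by decide) (by decide) (by decide) (by decide) 1 ?_ ?_ ?_ ?_
      (by linarith) (hdis 2 5 (by decide))
    · rw [rot3 crm x 3 4 5 6]; linarith
    · rw [rot3 crm x 2 4 5 6]; linarith
    · rw [sw34 crm x 2 3 4 6]; linarith
    · rw [sw34 crm x 2 3 4 5]; linarith
  · -- 3456
    have f45 := hF 45 (by norm_num) (by norm_num)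
    have f43 := hF 43 (by norm_num) (by norm_num)
    have f41 := hF 41 (by norm_num) (by norm_num)
    have f40 := hF 40 (by norm_num) (by norm_num)
    simp only [F2, tb2, Int.cast_neg, Int.cast_one, neg_mul, one_mul] at f45 f43 f41 f40 h0
    refine wall crm x 3 4 5 6 2 (by decide) (by decide) (by decide) (by decide) 1 ?_ ?_ ?_ ?_
      (by linarith) (hdis 3 5 (by decide))
    · rw [rot4 crm x 2 4 5 6]; linarith
    · rw [rot4 crm x 2 3 5 6]; linarith
    · rw [rot4 crm x 2 3 4 6]; linarith
    · rw [rot4 crm x 2 3 4 5]; linarith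

end Pool.Agent.LKU.H63
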